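import Pool.Agent.Helper87.QN.Defs

set_option autoImplicit false

/-! Row FLG of the sheet `Pool.Agent.Helper87.QN.Defs`. -/

namespace QN

open QD

theorem FLG_aux {n : ℕ} (L : ℤ → Set (Fin n → ℚ)) (hL : Monotone L) (tn : ℤ)
    (htn : Submodule.span ℚ (L tn) = ⊤) : ∀ i : ℕ, i ≤ n →
    ∃ x : Fin i → (Fin n → ℚ), LinearIndependent ℚ x ∧ (∀ j, x j ∈ L tn) ∧
      ∀ t : ℤ, (∃ k ≤ i, Submodule.span ℚ (L t) =
          Submodule.span ℚ (x '' {j | (j : ℕ) < k})) ∨
        Submodule.span ℚ (Set.range x) ≤ Submodule.span ℚ (L t) := by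
  intro i
  induction i with
  | zero =>
    intro _
    refine ⟨Fin.elim0, linearIndependent_empty_type, fun j => j.elim0, fun t => Or.inr ?_⟩
    rw [Submodule.span_le]
    rintro _ ⟨j, -⟩
    exact j.elim0
  | succ i ih =>
    intro hi
    obtain ⟨x, hx, hxL, hxt⟩ := ih (by omega)
    have hmono : Monotone fun t => Submodule.span ℚ (L t) :=
      fun s t hst => Submodule.span_mono (hL hst)
    set F : Submodule ℚ (Fin n → ℚ) := Submodule.span ℚ (Set.range x) with hF
    have hFtop : ¬ Submodule.span ℚ (L tn) ≤ F := by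
      intro h
      rw [htn, top_le_iff] at h
      have h1 : Module.finrank ℚ F = i := by
        rw [hF, finrank_span_eq_card hx, Fintype.card_fin]
      rw [h, finrank_top, Module.finrank_fin_fun] at h1
      omega
    -- the choice of the level
    obtain ⟨t0, ⟨ht0, ht0F⟩, hmin⟩ : ∃ t0 : ℤ, (t0 ≤ tn ∧ ¬ Submodule.span ℚ (L t0) ≤ F) ∧
        ∀ t : ℤ, (t ≤ tn ∧ ¬ Submodule.span ℚ (L t) ≤ F) →
          Module.finrank ℚ (Submodule.span ℚ (L t0)) ≤
            Module.finrank ℚ (Submodule.span ℚ (L t)) := by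
      have hne : ({t : ℤ | t ≤ tn ∧ ¬ Submodule.span ℚ (L t) ≤ F}).Nonempty :=
        ⟨tn, le_refl tn, hFtop⟩
      obtain ⟨t0, h0, h1⟩ := (WellFounded.has_min (measure fun t : ℤ =>
        Module.finrank ℚ (Submodule.span ℚ (L t))).wf _ hne)
      refine ⟨t0, h0, fun t ht => ?_⟩
      exact not_lt.1 (h1 t ht)
    have hbig : ∀ t : ℤ, ¬ Submodule.span ℚ (L t) ≤ F →
        Submodule.span ℚ (L t0) ≤ Submodule.span ℚ (L t) := by
      intro t ht
      rcases le_total t0 t with h | h
      · exact hmono h
      · have h1 := hmin t ⟨h.trans ht0, ht⟩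
        exact (Submodule.eq_of_le_of_finrank_le (hmono h) h1).ge
    have hFle : F ≤ Submodule.span ℚ (L t0) := by
      rcases hxt t0 with ⟨k, hk, h⟩ | h
      · exfalso
        apply ht0F
        rw [h]
        exact Submodule.span_mono (Set.image_subset_range _ _)
      · exact h
    obtain ⟨y, hy, hyF⟩ : ∃ y ∈ L t0, y ∉ F := by
      by_contra hcon
      push Not at hcon
      exact ht0F (Submodule.span_le.2 hcon)
    have himg : ∀ k ≤ i, (Fin.snoc x y : Fin (i + 1) → (Fin n → ℚ)) '' {j | (j : ℕ) < k} =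
        x '' {j | (j : ℕ) < k} := by
      intro k hk
      ext z
      constructor
      · rintro ⟨j, hj, rfl⟩
        have hj' : (j : ℕ) < i := lt_of_lt_of_le hj hk
        refine ⟨⟨j, hj'⟩, hj, ?_⟩
        have : j = Fin.castSucc ⟨j, hj'⟩ := rfl
        conv_rhs => rw [this, Fin.snoc_castSucc]
      · rintro ⟨j, hj, rfl⟩
        exact ⟨j.castSucc, hj, by rw [Fin.snoc_castSucc]⟩
    refine ⟨Fin.snoc x y, ?_, ?_, ?_⟩
    · rw [linearIndependent_finSnoc]
      exact ⟨hx, hyF⟩
    · intro j
      refine Fin.lastCases ?_ (fun j => ?_) j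
      · rw [Fin.snoc_last]
        exact hL ht0 hy
      · rw [Fin.snoc_castSucc]
        exact hxL j
    · intro t
      rcases hxt t with ⟨k, hk, h⟩ | h
      · left
        exact ⟨k, by omega, by rw [himg k hk, h]⟩
      · by_cases hle : Submodule.span ℚ (L t) ≤ F
        · left
          refine ⟨i, by omega, ?_⟩
          rw [himg i le_rfl]
          have h2 : x '' {j | (j : ℕ) < i} = Set.range x := by
            rw [← Set.image_univ]
            congr 1
            ext j
            simp
          rw [h2]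
          exact le_antisymm hle h
        · right
          rw [Submodule.span_le]
          rintro _ ⟨j, rfl⟩
          refine Fin.lastCases ?_ (fun j => ?_) j
          · rw [Fin.snoc_last]
            exact hbig t hle (Submodule.subset_span hy)
          · rw [Fin.snoc_castSucc]
            exact h (Submodule.subset_span ⟨j, rfl⟩)

theorem FLG_mono {m n : ℕ} (N : Pl m → (Fin n → ℚ) → ℚ) : Monotone fun t : ℤ => lev N t := by
  intro s t hst x hx
  refine ⟨hx.1, fun v => (hx.2 v).trans ?_⟩
  exact zpow_le_zpow_right₀ (by norm_num) hst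

theorem st_FLG : ST_FLG := by
  intro m n _ N _ tn htn
  obtain ⟨x, hx, hxL, hxt⟩ := FLG_aux (fun t => lev N t) (FLG_mono N) tn htn n le_rfl
  have hcard : Fintype.card (Fin n) = Module.finrank ℚ (Fin n → ℚ) := by
    rw [Module.finrank_fin_fun, Fintype.card_fin]
  let b : Module.Basis (Fin n) ℚ (Fin n → ℚ) := basisOfLinearIndependentOfCardEqFinrank' x hx hcard
  have hb : ∀ j, b j = x j := fun j => by
    simp [b]
  let e : Module.Basis (Fin n) ℚ (Fin n → ℚ) := Pi.basisFun ℚ (Fin n)
  let X : GL (Fin n) ℚ := ⟨e.toMatrix b, b.toMatrix e, e.toMatrix_mul_toMatrix_flip b,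
    b.toMatrix_mul_toMatrix_flip e⟩
  have hXinv : ∀ z : Fin n → ℚ, (X⁻¹).1.mulVec z = b.repr z := by
    intro z
    show (b.toMatrix e).mulVec z = b.repr z
    have h := e.toMatrix_mulVec_repr b z
    have h1 : (e.repr z : Fin n → ℚ) = z := by
      ext j
      simp [e]
    rw [h1] at h
    exact h
  refine ⟨X, ?_, ?_⟩
  · intro j
    have h : (fun i => X.1 i j) = x j := by
      funext i
      show e.toMatrix b i j = x j i
      rw [Module.Basis.toMatrix_apply, hb]
      simp [e]
    rw [h]
    exact hxL j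
  · intro t
    have key : ∀ k : ℕ, ∀ z, z ∈ Submodule.span ℚ (x '' {j | (j : ℕ) < k}) ↔
        ∀ j : Fin n, k ≤ (j : ℕ) → ((X⁻¹).1.mulVec z) j = 0 := by
      intro k z
      have hbx : (x '' {j | (j : ℕ) < k}) = b '' {j | (j : ℕ) < k} := by
        apply Set.image_congr
        intro j _
        exact (hb j).symm
      rw [hbx, Module.Basis.mem_span_image, hXinv]
      constructor
      · intro h j hj
        by_contra hne
        have := h (Finsupp.mem_support_iff.2 hne)
        have h5 : (j : ℕ) < k := this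
        omega
      · intro h j hj
        rw [Finset.mem_coe, Finsupp.mem_support_iff] at hj
        show (j : ℕ) < k
        by_contra hlt
        exact hj (h j (by omega))
    rcases hxt t with ⟨k, hk, h⟩ | h
    · refine ⟨k, hk, fun z => ?_⟩
      rw [← key k z, ← h]
      rfl
    · refine ⟨n, le_rfl, fun z => ?_⟩
      constructor
      · intro _ j hj
        exact absurd j.2 (by omega)
      · intro _
        have h3 : Submodule.span ℚ (Set.range x) = ⊤ := hx.span_eq_top_of_card_eq_finrank' hcard
        rw [h3, top_le_iff] at h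
        show z ∈ Submodule.span ℚ (lev N t)
        rw [show Submodule.span ℚ (lev N t) = ⊤ from h]
        exact Submodule.mem_top

end QN
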